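import Pool.Agent.Y72.Ko.Stm

/-!
Piecewise `C²` homeomorphisms satisfy the local bounds (helper454, job KO-LOC).
-/

set_option autoImplicit false

namespace Pool.Agent.Y454.KO

open Finset Pool.Agent.Y72.Ko

/-- the bounds on one interval -/
theorem one (f : unitInterval ≃o unitInterval) (s t : unitInterval) (F : ℝ → ℝ)
    (hF : ContDiff ℝ 2 F) (hpos : ∀ u : ℝ, (s : ℝ) ≤ u → u ≤ t → 0 < deriv F u)
    (hfF : ∀ z : unitInterval, s ≤ z → z ≤ t → (f z : ℝ) = F z) :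
    ∃ L K : ℝ, 0 ≤ L ∧ 0 ≤ K ∧ (∀ a b x y z w : unitInterval, s ≤ a → b ≤ t →
      a ≤ x → x < y → y ≤ b → a ≤ z → z < w → w ≤ b →
      |ls f x y - ls f z w| ≤ L * ((b : ℝ) - a)) ∧
      ∀ x y : unitInterval, s ≤ x → x < y → y ≤ t → |ls f x y| ≤ K := by
  have hF1 : ContDiff ℝ 1 (deriv F) := by
    have h2 : ContDiff ℝ (1 + 1) F := by
      have : (1 + 1 : WithTop ℕ∞) = 2 := one_add_one_eq_two
      rw [this]
      exact hF
    exact (contDiff_succ_iff_deriv.1 h2).2.2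
  have hdiff : Differentiable ℝ F := hF.differentiable (by norm_num)
  have hdiff1 : Differentiable ℝ (deriv F) := hF1.differentiable (by norm_num)
  have hc1 : Continuous (deriv F) := hF1.continuous
  have hc2 : Continuous (deriv (deriv F)) := hF1.continuous_deriv le_rfl
  have hcG : ContinuousOn (fun u => deriv (deriv F) u / deriv F u) (Set.Icc (s : ℝ) t) :=
    hc2.continuousOn.div hc1.continuousOn fun u hu => (hpos u hu.1 hu.2).ne'
  have hcφ : ContinuousOn (fun u => Real.log (deriv F u)) (Set.Icc (s : ℝ) t) :=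
    hc1.continuousOn.log fun u hu => (hpos u hu.1 hu.2).ne'
  obtain ⟨L, hL⟩ := isCompact_Icc.exists_bound_of_continuousOn hcG
  obtain ⟨K, hK⟩ := isCompact_Icc.exists_bound_of_continuousOn hcφ
  -- the mean value theorem
  have key : ∀ x y : unitInterval, s ≤ x → x < y → y ≤ t → ∃ ξ : ℝ, (x : ℝ) < ξ ∧ ξ < y ∧
      ls f x y = Real.log (deriv F ξ) := by
    intro x y hx hxy hy
    have hxy' : (x : ℝ) < y := Subtype.coe_lt_coe.2 hxy
    obtain ⟨ξ, hξ, he⟩ := exists_deriv_eq_slope F hxy' hdiff.continuous.continuousOn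
      hdiff.differentiableOn
    refine ⟨ξ, hξ.1, hξ.2, ?_⟩
    unfold ls
    rw [hfF x hx (hxy.le.trans hy), hfF y (hx.trans hxy.le) hy, he]
  have hst : ∀ x y : unitInterval, s ≤ x → y ≤ t → ∀ ξ : ℝ, (x : ℝ) < ξ → ξ < y →
      ξ ∈ Set.Icc (s : ℝ) t := by
    intro x y hx hy ξ h1 h2
    have h3 : (s : ℝ) ≤ x := Subtype.coe_le_coe.2 hx
    have h4 : (y : ℝ) ≤ t := Subtype.coe_le_coe.2 hy
    exact ⟨by linarith, by linarith⟩
  refine ⟨max L 0, max K 0, le_max_right _ _, le_max_right _ _,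
    fun a b x y z w hsa hbt hax hxy hyb haz hzw hwb => ?_, fun x y hx hxy hy => ?_⟩
  · obtain ⟨ξ, h1, h2, h3⟩ := key x y (hsa.trans hax) hxy (hyb.trans hbt)
    obtain ⟨η, h4, h5, h6⟩ := key z w (hsa.trans haz) hzw (hwb.trans hbt)
    have hξ := hst x y (hsa.trans hax) (hyb.trans hbt) ξ h1 h2
    have hη := hst z w (hsa.trans haz) (hwb.trans hbt) η h4 h5
    have h7 := Convex.norm_image_sub_le_of_norm_hasDerivWithin_le
      (f := fun u => Real.log (deriv F u)) (f' := fun u => deriv (deriv F) u / deriv F u)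
      (C := L) (s := Set.Icc (s : ℝ) t) (x := η) (y := ξ)
      (fun u hu => ((hdiff1 u).hasDerivAt.log (hpos u hu.1 hu.2).ne').hasDerivWithinAt)
      (fun u hu => hL u hu) (convex_Icc _ _) hη hξ
    rw [Real.norm_eq_abs, Real.norm_eq_abs] at h7
    rw [h3, h6]
    have e1 : (a : ℝ) ≤ x := Subtype.coe_le_coe.2 hax
    have e2 : (y : ℝ) ≤ b := Subtype.coe_le_coe.2 hyb
    have e3 : (a : ℝ) ≤ z := Subtype.coe_le_coe.2 haz
    have e4 : (w : ℝ) ≤ b := Subtype.coe_le_coe.2 hwb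
    have h8 : |ξ - η| ≤ (b : ℝ) - a := by
      rw [abs_le]
      exact ⟨by linarith, by linarith⟩
    refine h7.trans ?_
    calc L * |ξ - η| ≤ max L 0 * |ξ - η| :=
          mul_le_mul_of_nonneg_right (le_max_left _ _) (abs_nonneg _)
      _ ≤ max L 0 * ((b : ℝ) - a) := mul_le_mul_of_nonneg_left h8 (le_max_right _ _)
  · obtain ⟨ξ, h1, h2, h3⟩ := key x y hx hxy hy
    have hξ := hst x y hx hy ξ h1 h2
    have h4 := hK ξ hξ
    rw [Real.norm_eq_abs] at h4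
    rw [h3]
    exact h4.trans (le_max_left _ _)

theorem loc : S_LOC := by
  classical
  intro f B hB hF
  have h1 : ∀ p : unitInterval × unitInterval, ∃ L K : ℝ, 0 ≤ L ∧ 0 ≤ K ∧
      (p.1 ≤ p.2 → (∀ t ∈ B, ¬ (p.1 < t ∧ t < p.2)) →
        (∀ a b x y z w : unitInterval, p.1 ≤ a → b ≤ p.2 →
          a ≤ x → x < y → y ≤ b → a ≤ z → z < w → w ≤ b →
          |ls f x y - ls f z w| ≤ L * ((b : ℝ) - a)) ∧
        ∀ x y : unitInterval, p.1 ≤ x → x < y → y ≤ p.2 → |ls f x y| ≤ K) := by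
    intro p
    by_cases h : p.1 ≤ p.2 ∧ ∀ t ∈ B, ¬ (p.1 < t ∧ t < p.2)
    · obtain ⟨F, hF1, hF2, hF3⟩ := hF p.1 p.2 h.1 h.2
      obtain ⟨L, K, hL, hK, h2, h3⟩ := one f p.1 p.2 F hF1 hF2 hF3
      exact ⟨L, K, hL, hK, fun _ _ => ⟨h2, h3⟩⟩
    · exact ⟨0, 0, le_rfl, le_rfl, fun h2 h3 => absurd ⟨h2, h3⟩ h⟩
  choose LL KK hL0 hK0 hLK using h1
  obtain ⟨B', hB'⟩ : ∃ B' : Finset unitInterval, B' = insert 0 (insert 1 hB.toFinset) := ⟨_, rfl⟩
  have hz : (0 : unitInterval) ∈ B' := by rw [hB']; exact mem_insert_self _ _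
  have ho : (1 : unitInterval) ∈ B' := by
    rw [hB']; exact mem_insert_of_mem (mem_insert_self _ _)
  have hBB : ∀ v ∈ B, v ∈ B' := by
    intro v hv
    rw [hB']
    exact mem_insert_of_mem (mem_insert_of_mem (hB.mem_toFinset.2 hv))
  -- the interval around `[a, b]`
  have hint : ∀ a b : unitInterval, a ≤ b → (∀ t ∈ B, ¬ (a < t ∧ t < b)) →
      ∃ p ∈ B' ×ˢ B', p.1 ≤ a ∧ b ≤ p.2 ∧ p.1 ≤ p.2 ∧ ∀ t ∈ B, ¬ (p.1 < t ∧ t < p.2) := by
    intro a b hab hno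
    obtain ⟨s, hs, hs2⟩ := exists_max_image (B'.filter (fun u => u ≤ a)) id
      ⟨0, mem_filter.2 ⟨hz, unitInterval.nonneg'⟩⟩
    obtain ⟨t, ht, ht2⟩ := exists_min_image (B'.filter (fun u => b ≤ u)) id
      ⟨1, mem_filter.2 ⟨ho, unitInterval.le_one'⟩⟩
    rw [mem_filter] at hs ht
    refine ⟨(s, t), mem_product.2 ⟨hs.1, ht.1⟩, hs.2, ht.2, hs.2.trans (hab.trans ht.2), ?_⟩
    rintro v hv ⟨h1, h2⟩
    apply hno v hv
    constructor
    · by_contra hc
      exact absurd (hs2 v (mem_filter.2 ⟨hBB v hv, not_lt.1 hc⟩)) (not_le.2 h1)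
    · by_contra hc
      exact absurd (ht2 v (mem_filter.2 ⟨hBB v hv, not_lt.1 hc⟩)) (not_le.2 h2)
  refine ⟨∑ p ∈ B' ×ˢ B', LL p, ∑ p ∈ B' ×ˢ B', KK p,
    fun a b x y z w hno hax hxy hyb haz hzw hwb => ?_, fun x y hno hxy => ?_⟩
  · have hab : a ≤ b := hax.trans (hxy.le.trans hyb)
    obtain ⟨p, hp, h1, h2, h3, h4⟩ := hint a b hab hno
    have h5 := (hLK p h3 h4).1 a b x y z w h1 h2 hax hxy hyb haz hzw hwb
    refine h5.trans ?_
    apply mul_le_mul_of_nonneg_right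
    · exact single_le_sum (f := LL) (fun q _ => hL0 q) hp
    · have : (a : ℝ) ≤ b := Subtype.coe_le_coe.2 hab
      linarith
  · obtain ⟨p, hp, h1, h2, h3, h4⟩ := hint x y hxy.le hno
    have h5 := (hLK p h3 h4).2 x y h1 hxy h2
    exact h5.trans (single_le_sum (f := KK) (fun q _ => hK0 q) hp)

end Pool.Agent.Y454.KO
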